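import Mathlib

/-!
# Simple higher-dimensional Venn diagrams: definitions and the explicit model
-/

namespace Pool.Agent.Helper13.Venn

open Set Metric Topology Bornology

/-- Euclidean space of dimension `k`. -/
abbrev E (k : ℕ) : Type := EuclideanSpace ℝ (Fin k)

/-- `S` is a `j`-surface: homeomorphic to the unit sphere `S^(j-1)` of `ℝ^j`
(for `j = 0` this is the empty set). -/
def IsSurface {m : ℕ} (j : ℕ) (S : Set (E m)) : Prop :=
  Nonempty (S ≃ₜ sphere (0 : E j) 1)

/-- The interior of `S`: the union of the bounded components of the complement. -/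
def inner {m : ℕ} (S : Set (E m)) : Set (E m) :=
  {x | x ∉ S ∧ IsBounded (connectedComponentIn Sᶜ x)}

/-- The exterior of `S`: the union of the unbounded components of the complement. -/
def outer {m : ℕ} (S : Set (E m)) : Set (E m) :=
  {x | x ∉ S ∧ ¬ IsBounded (connectedComponentIn Sᶜ x)}

/-- The region of the family `S` with pattern `ε` (`true` means exterior). -/
def region {m n : ℕ} (S : Fin n → Set (E m)) (ε : Fin n → Bool) : Set (E m) :=
  {x | ∀ i, if ε i then x ∈ outer (S i) else x ∈ inner (S i)}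

/-- A finite union of `j`-surfaces. -/
def IsFiniteUnionOfSurfaces {m : ℕ} (j : ℕ) (A : Set (E m)) : Prop :=
  ∃ T : Set (Set (E m)), T.Finite ∧ (∀ t ∈ T, IsSurface j t) ∧ A = ⋃₀ T

/-- `m`-dimensional `n`-Venn diagrams. -/
def IsVenn (m n : ℕ) (S : Fin n → Set (E m)) : Prop :=
  Function.Injective S ∧ (∀ i, IsSurface m (S i)) ∧
  (∀ ε, (region S ε).Nonempty ∧ IsConnected (region S ε) ∧
    ∃ T : Set (E m), IsSurface m T ∧
      (Nonempty (region S ε ≃ₜ inner T) ∨ Nonempty (region S ε ≃ₜ outer T))) ∧
  (∀ i j, i ≠ j → IsFiniteUnionOfSurfaces (m - 1) (S i ∩ S j))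

/-- Simplicity: any `k ≥ 2` of the surfaces meet in a finite union of `(m-k+1)`-surfaces. -/
def IsSimpleDiagram (m n : ℕ) (S : Fin n → Set (E m)) : Prop :=
  ∀ I : Finset (Fin n), 2 ≤ I.card →
    IsFiniteUnionOfSurfaces (m + 1 - I.card) (⋂ i ∈ I, S i)

/-- The part of `S i` outside the other surfaces; its components are the edges on `S i`. -/
def free {m n : ℕ} (S : Fin n → Set (E m)) (i : Fin n) : Set (E m) :=
  {x | x ∈ S i ∧ ∀ j, j ≠ i → x ∉ S j}

/-- The number of edges. -/
noncomputable def numEdges {m n : ℕ} (S : Fin n → Set (E m)) : ℕ∞ :=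
  ∑ i, ENat.card (ConnectedComponents (free S i))

/-- `p` is the interpolation polynomial `p_m`. -/
def IsInterp (m : ℕ) (p : Polynomial ℝ) : Prop :=
  p.natDegree ≤ m - 2 ∧
    ∀ k : ℕ, 2 ≤ k → k ≤ m → p.eval (k : ℝ) = k * 2 ^ (k - 1) - m * 2 ^ k

/-! ### The explicit model -/

/-- vanishes on the cone over the closed curve `|y - 2| + |z| = 1`, `x = 1` -/
def phi (x y z : ℝ) : ℝ := |(|y - 2 * x| + |z| - x)|

/-- upper contact function: vanishes on the cone over the right half of the curve and the
point `(1,1,0)` -/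
def FU (x y z : ℝ) : ℝ := min (phi x y z + max 0 (2 * x - y)) (|y - x| + |z| + (|x| - x))

/-- lower contact function: vanishes on the cone over the left half of the curve and the
point `(1,3,0)` -/
def FL (x y z : ℝ) : ℝ := min (phi x y z + max 0 (y - 2 * x)) (|y - 3 * x| + |z| + (|x| - x))

/-- the height function of the sixth surface -/
def hgt (x y z v : ℝ) : ℝ := min (FU x y z - v) (FL x y z + v)

/-- the six homogeneous functions whose zero sets on the unit sphere of `ℝ^5` are the
six surfaces -/
def g (i : Fin 6) (p : E 5) : ℝ :=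
  if h : i.val < 5 then p ⟨i.val, h⟩ else p 4 - hgt (p 0) (p 1) (p 2) (p 3)

/-- the point removed from the sphere -/
noncomputable def pInf : E 5 := !₂[-3/10, -3/10, -3/10, -3/10, -4/5]

end Pool.Agent.Helper13.Venn
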