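import Pool.Agent.Helper13.Venn.Defs

namespace Pool.Agent.Helper13.Venn

theorem interp_four (p : Polynomial ℝ) (hp : IsInterp 4 p) : p.eval (6 : ℝ) = -68 := by
  obtain ⟨hd, he⟩ := hp
  have h3 : p.natDegree < 3 := by omega
  have e2 := he 2 (by norm_num) (by norm_num)
  have e3 := he 3 (by norm_num) (by norm_num)
  have e4 := he 4 (by norm_num) (by norm_num)
  rw [Polynomial.eval_eq_sum_range' h3] at e2 e3 e4 ⊢
  simp only [Finset.sum_range_succ, Finset.sum_range_zero] at e2 e3 e4 ⊢
  norm_num at e2 e3 e4 ⊢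
  linarith

end Pool.Agent.Helper13.Venn
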