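import Pool.Agent.Helper13.Venn.Defs
import Pool.Agent.Helper13.Venn.Interp
import Pool.Agent.Helper60.VD.VD3
import Pool.Agent.Helper60.VD.VD10
import Pool.Agent.Helper74.VD.VD4
import Pool.Agent.Helper68.VD.VD5
import Pool.Agent.Helper68.VD.VD6
import Pool.Agent.Helper28.VD.VD7
import Pool.Agent.Helper75.VD.VD11b
import Pool.Agent.Helper91.VD.VD11c

namespace Pool.Agent.Helper13.Venn

open Set Metric Topology Bornology

theorem isConnected_of_homeo {X Y : Type*} [TopologicalSpace X] [TopologicalSpace Y]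
    {A : Set X} {B : Set Y} (h : A ≃ₜ B) (hB : IsConnected B) : IsConnected A := by
  haveI := isConnected_iff_connectedSpace.mp hB
  rw [isConnected_iff_connectedSpace]
  exact h.symm.surjective.connectedSpace h.symm.continuous

theorem one_lt_rank_E4 : 1 < Module.rank ℝ (E 4) := by
  rw [← Module.finrank_eq_rank, finrank_euclideanSpace_fin]
  norm_num

section

variable (ι : E 4 → E 5) (hι : IsEmbedding ι) (hr : range ι = {p : E 5 | ‖p‖ = 1 ∧ p ≠ pInf})

/-- the six surfaces -/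
def Sf (i : Fin 6) : Set (E 4) := {y : E 4 | g i (ι y) = 0}

include hι hr

theorem norm_iota (y : E 4) : ‖ι y‖ = 1 ∧ ι y ≠ pInf := by
  have : ι y ∈ range ι := ⟨y, rfl⟩
  rw [hr] at this
  exact this

theorem inner_Sf (i : Fin 6) : inner (Sf ι i) = {y | 0 < g i (ι y)} :=
  (inner_outer ι hι hr (g i) (continuous_g i) (g_pInf i) (neg_connected i)).1

theorem outer_Sf (i : Fin 6) : outer (Sf ι i) = {y | g i (ι y) < 0} :=
  (inner_outer ι hι hr (g i) (continuous_g i) (g_pInf i) (neg_connected i)).2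

theorem region_eq (ε : Fin 6 → Bool) :
    region (Sf ι) ε = ι ⁻¹' ({p : E 5 | ‖p‖ = 1 ∧ ∀ i, if ε i then g i p < 0 else 0 < g i p} \
      {pInf}) := by
  ext y
  have hy := norm_iota ι hι hr y
  simp only [region, mem_setOf_eq, mem_preimage, mem_diff, mem_singleton_iff]
  constructor
  · intro h
    refine ⟨⟨hy.1, fun i => ?_⟩, hy.2⟩
    have := h i
    rw [inner_Sf ι hι hr, outer_Sf ι hι hr] at this
    exact this
  · rintro ⟨⟨-, h⟩, -⟩ i
    have := h i
    rw [inner_Sf ι hι hr, outer_Sf ι hι hr]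
    exact this

theorem region_ok (ε : Fin 6 → Bool) :
    IsConnected (region (Sf ι) ε) ∧ ∃ T : Set (E 4), IsSurface 4 T ∧
      (Nonempty (region (Sf ι) ε ≃ₜ inner T) ∨ Nonempty (region (Sf ι) ε ≃ₜ outer T)) := by
  set R : Set (E 5) := {p : E 5 | ‖p‖ = 1 ∧ ∀ i, if ε i then g i p < 0 else 0 < g i p} with hR
  obtain ⟨φ⟩ := region_homeo ε
  have hsub : R \ {pInf} ⊆ range ι := by
    rw [hr]
    rintro p ⟨hp, hne⟩
    exact ⟨hp.1, hne⟩
  obtain ⟨ψ⟩ := preimage_homeo ι hι (R \ {pInf}) hsub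
  have hreg : region (Sf ι) ε = ι ⁻¹' (R \ {pInf}) := region_eq ι hι hr ε
  rw [hreg]
  by_cases hmem : pInf ∈ R
  · -- the punctured region
    set x : E 4 := φ ⟨pInf, hmem⟩ with hx
    have key : Nonempty (↥(R \ {pInf}) ≃ₜ ({x}ᶜ : Set (E 4))) := by
      refine ⟨⟨⟨fun p => ⟨φ ⟨p.1, p.2.1⟩, fun h => p.2.2 ?_⟩,
        fun q => ⟨(φ.symm q.1).1, (φ.symm q.1).2, fun h => q.2 ?_⟩, ?_, ?_⟩, ?_, ?_⟩⟩
      · have h1 : φ ⟨p.1, p.2.1⟩ = x := h
        rw [hx] at h1
        have h2 := φ.injective h1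
        exact congrArg Subtype.val h2
      · have h1 : (φ.symm q.1) = ⟨pInf, hmem⟩ := Subtype.ext h
        have h2 : q.1 = φ ⟨pInf, hmem⟩ := by rw [← h1]; simp
        exact h2
      · intro p
        simp
      · intro q
        simp
      · exact (φ.continuous.comp (continuous_subtype_val.subtype_mk _)).subtype_mk _
      · exact (continuous_subtype_val.comp
          (φ.symm.continuous.comp continuous_subtype_val)).subtype_mk _
    obtain ⟨θ⟩ := key
    obtain ⟨T, hT, ⟨ω⟩⟩ := homeo_outer x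
    refine ⟨isConnected_of_homeo (ψ.trans θ)
      (isConnected_compl_singleton_of_one_lt_rank one_lt_rank_E4 x), T, hT,
      Or.inr ⟨(ψ.trans θ).trans ω⟩⟩
  · have hdiff : R \ {pInf} = R := by
      ext p
      constructor
      · exact fun h => h.1
      · intro h
        exact ⟨h, fun h' => hmem (h' ▸ h)⟩
    obtain ⟨T, hT, ⟨ω⟩⟩ := homeo_inner
    have ψ' : ↥(ι ⁻¹' (R \ {pInf})) ≃ₜ ↥R := ψ.trans (Homeomorph.setCongr hdiff)
    have hc : IsConnected (ι ⁻¹' (R \ {pInf})) := by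
      refine isConnected_of_homeo (B := (univ : Set (E 4)))
        ((ψ'.trans φ).trans (Homeomorph.Set.univ (E 4)).symm) isConnected_univ
    exact ⟨hc, T, hT, Or.inl ⟨(ψ'.trans φ).trans ω⟩⟩

theorem surface_ok (i : Fin 6) : IsSurface 4 (Sf ι i) := by
  obtain ⟨φ⟩ := model_surface i
  have hsub : {p : E 5 | ‖p‖ = 1 ∧ g i p = 0} ⊆ range ι := by
    rw [hr]
    rintro p ⟨hp, h0⟩
    refine ⟨hp, fun h => ?_⟩
    have := g_pInf i
    rw [← h, h0] at this
    exact lt_irrefl _ this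
  obtain ⟨ψ⟩ := preimage_homeo ι hι _ hsub
  have heq : Sf ι i = ι ⁻¹' {p : E 5 | ‖p‖ = 1 ∧ g i p = 0} := by
    ext y
    have hy := norm_iota ι hι hr y
    simp [Sf, hy.1]
  unfold IsSurface
  rw [heq]
  exact ⟨ψ.trans φ⟩

theorem inter_ok (I : Finset (Fin 6)) (hI : 1 ≤ I.card) :
    IsFiniteUnionOfSurfaces (5 - I.card) (⋂ i ∈ I, Sf ι i) := by
  obtain ⟨T, hfin, hT, hU⟩ := model_inter I hI
  refine ⟨(fun t => ι ⁻¹' t) '' T, hfin.image _, ?_, ?_⟩
  · rintro _ ⟨t, ht, rfl⟩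
    obtain ⟨φ⟩ := hT t ht
    have hsub : t ⊆ range ι := by
      intro p hp
      have h1 : p ∈ {p : E 5 | ‖p‖ = 1 ∧ ∀ i ∈ I, g i p = 0} := by
        rw [hU]; exact ⟨t, ht, hp⟩
      obtain ⟨i, hi⟩ := Finset.card_pos.mp hI
      rw [hr]
      refine ⟨h1.1, fun h => ?_⟩
      have := g_pInf i
      rw [← h, h1.2 i hi] at this
      exact lt_irrefl _ this
    obtain ⟨ψ⟩ := preimage_homeo ι hι t hsub
    exact ⟨ψ.trans φ⟩
  · have h1 : (⋂ i ∈ I, Sf ι i) = ι ⁻¹' {p : E 5 | ‖p‖ = 1 ∧ ∀ i ∈ I, g i p = 0} := by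
      ext y
      have hy := norm_iota ι hι hr y
      simp [Sf, hy.1]
    rw [h1, hU]
    ext y
    simp [mem_sUnion]

theorem numEdges_ok : (190 : ℕ∞) ≤ numEdges (Sf ι) := by
  unfold numEdges
  rw [Fin.sum_univ_six]
  have h0 := edges0 ι hι hr
  have h1 := edges1 ι hι hr
  have h2 := edges2 ι hι hr
  have h3 := edges3 ι hι hr
  have h4 := edges4 ι hι hr
  have h5 := edges5 ι hι hr
  calc (190 : ℕ∞) = 32 + 32 + 36 + 26 + 32 + 32 := by norm_num
    _ ≤ _ := by
      refine add_le_add (add_le_add (add_le_add (add_le_add (add_le_add ?_ ?_) ?_) ?_) ?_) ?_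
      · exact h0
      · exact h1
      · exact h2
      · exact h3
      · exact h4
      · exact h5

theorem free_nonempty (i : Fin 6) : (free (Sf ι) i).Nonempty := by
  have h : (1 : ℕ∞) ≤ ENat.card (ConnectedComponents (free (Sf ι) i)) := by
    fin_cases i
    · exact le_trans (by norm_num) (edges0 ι hι hr)
    · exact le_trans (by norm_num) (edges1 ι hι hr)
    · exact le_trans (by norm_num) (edges2 ι hι hr)
    · exact le_trans (by norm_num) (edges3 ι hι hr)
    · exact le_trans (by norm_num) (edges4 ι hι hr)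
    · exact le_trans (by norm_num) (edges5 ι hι hr)
  by_contra hne
  rw [not_nonempty_iff_eq_empty] at hne
  haveI : IsEmpty (free (Sf ι) i) := by rw [hne]; infer_instance
  haveI : IsEmpty (ConnectedComponents (free (Sf ι) i)) := by
    constructor
    intro c
    obtain ⟨x, -⟩ := ConnectedComponents.surjective_coe c
    exact isEmptyElim x
  rw [(ENat.card_eq_zero_iff_empty (ConnectedComponents (free (Sf ι) i))).mpr inferInstance] at h
  exact absurd h (by norm_num)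

theorem injective_Sf : Function.Injective (Sf ι) := by
  intro i j hij
  by_contra hne
  obtain ⟨x, hx, hx'⟩ := free_nonempty ι hι hr i
  exact hx' j (fun h => hne h.symm) (hij ▸ hx)

theorem isSimple_Sf : IsSimpleDiagram 4 6 (Sf ι) := fun I hI =>
  inter_ok ι hι hr I (le_trans (by norm_num) hI)

theorem isVenn_Sf : IsVenn 4 6 (Sf ι) := by
  refine ⟨injective_Sf ι hι hr, surface_ok ι hι hr, fun ε => ?_, fun i j hij => ?_⟩
  · obtain ⟨h1, h2⟩ := region_ok ι hι hr ε
    exact ⟨h1.nonempty, h1, h2⟩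
  · have h := inter_ok ι hι hr {i, j} (by rw [Finset.card_pair hij]; norm_num)
    rw [Finset.card_pair hij] at h
    have h2 : (⋂ k ∈ ({i, j} : Finset (Fin 6)), Sf ι k) = Sf ι i ∩ Sf ι j := by
      ext y; simp
    rw [h2] at h
    exact h

end

theorem exists_interp : ∃ p : Polynomial ℝ, IsInterp 4 p := by
  refine ⟨Polynomial.C (-2) * Polynomial.X ^ 2 + Polynomial.C 2 * Polynomial.X +
    Polynomial.C (-8), ?_, ?_⟩
  · compute_degree
  · intro k h2 h4
    have hk : k = 2 ∨ k = 3 ∨ k = 4 := by omega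
    rcases hk with rfl | rfl | rfl <;> norm_num

theorem final_result :
    (∃ S : Fin 6 → Set (E 4), IsVenn 4 6 S ∧ IsSimpleDiagram 4 6 S ∧ (190 : ℕ∞) ≤ numEdges S ∧
      ∀ p : Polynomial ℝ, IsInterp 4 p → 4 * 2 ^ 6 + p.eval (6 : ℝ) = 188) ∧
    ¬ (∀ m n : ℕ, 3 ≤ m → 2 ≤ n → ∀ S : Fin n → Set (E m), IsVenn m n S → IsSimpleDiagram m n S →
      ∀ p : Polynomial ℝ, IsInterp m p →
        ∀ N : ℕ, (N : ℕ∞) ≤ numEdges S → (N : ℝ) ≤ m * 2 ^ n + p.eval (n : ℝ)) := by
  obtain ⟨ι, hι, hr⟩ := exists_iota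
  refine ⟨⟨Sf ι, isVenn_Sf ι hι hr, isSimple_Sf ι hι hr, numEdges_ok ι hι hr, fun p hp => ?_⟩,
    fun hC => ?_⟩
  · rw [interp_four p hp]; norm_num
  · obtain ⟨p, hp⟩ := exists_interp
    have h := hC 4 6 (by norm_num) (by norm_num) (Sf ι) (isVenn_Sf ι hι hr)
      (isSimple_Sf ι hι hr) p hp 190 (by exact_mod_cast numEdges_ok ι hι hr)
    have h6 : p.eval ((6 : ℕ) : ℝ) = -68 := by
      have := interp_four p hp
      exact_mod_cast this
    rw [h6] at h
    norm_num at h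

end Pool.Agent.Helper13.Venn
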